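import Mathlib
import Pool.Agent.TH394.HadCheck3
import Pool.Agent.TH786.HadBorderQ

/-!
# A Hadamard matrix of order 2148

Four `±1` functions on `G = Z_2 x Z_3 x Z_89` (nibble `p` of `S` holds the four signs at the
element with code `p`).
With `N` the kernel of the map from `G` onto `Q = Z_3`, the total periodic autocorrelation is
`-12` at the nonzero elements of `N` and `0` outside `N`. The Goethals-Seidel array of order
`2136` is bordered by 12 rows and columns that are constant on the cosets of `N`.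
-/

set_option autoImplicit false

namespace Pool.Agent.Y341.Had.N537

open Pool.Agent.TH394 Pool.Agent.TH786.Had

/-- the group -/
abbrev G : Type := Fin 2 × Fin 3 × Fin 89

/-- the quotient -/
abbrev Q : Type := Fin 3

/-- the sequences -/
def S : ℕ :=
  0x33b36bb3d64b4b436da6d4bb44aba443964daa369d943b6bd4446adb4aa494a39936d46d4a9a93d6499d49449bb0be00b0eb0c0cbe07e0b00bc707ccb5ec077be505bb0e00bcce700b77c5c7b55be0ce0b7575b0eb550b5bb0ff8fa88fea08383fae4ae0880348433f5a3e44fa5e50f8a8e033a4e80443534f55fae3ae04545fea055e0500eaa5aa55a4a15b5baa4fa41551bf5fbba4ab4ffaa4441a5a541bbaf451ffb4bfa44aa4ba41f4f4a4a1444141168868766847d6b6b874274d66db262bb897b42287949d86764dbb7246d22b9b2899874b74d2929847d994d9ddfdd0d900d59a0303d95695a00a360633df93566d9f5fad0905a339650a663f36dffd95395a6f6fd59aff5afaaf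

/-- the quotient map -/
def pi (x : G) : Q := x.2.1

/-- the code of a class -/
def cd (q : Q) : ℕ := q.1

/-- the class of a code -/
def pr (q : ℕ) (p : ℕ) : Bool :=
  Nat.beq (Nat.mod (Nat.div p 89) 3) q

theorem pi_pr : ∀ (q : Q) (x : G), pi x = q ↔ pr (cd q) (Loop.enc x) = true := by
  decide +kernel

theorem pi_add : ∀ x y : G, pi (x + y) = pi x + pi y := fun _ _ => rfl

/-- agreements needed at the shift with code `p` -/
def tt (p : ℕ) : ℕ := cond (pr 0 p) 1062 1068

set_option maxRecDepth 100000 in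
theorem check : checkC G S tt = true := by decide +kernel

/-- class sums -/
def cA : Q → ℤ := fun q => if q = 0 then 0 else 0
/-- class sums -/
def cB : Q → ℤ := fun q => if q = 0 then 2 else 0
/-- class sums -/
def cC : Q → ℤ := fun q => if q = 0 then 2 else 0
/-- class sums -/
def cD : Q → ℤ := fun q => if q = 0 then 2 else 0

/-- code of the border columns -/
def Zn : ℕ := 0x25d4b976868e1dad1c8eced0b893b4fff5c5

/-- code of the border rows -/
def Yn : ℕ := 0xbefb02a5c8f2889935dc4d5bc2ee97e61fb8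

/-- code of the corner -/
def Xn : ℕ := 0x2182a5eb2646f15580471c2c8d4ec9b60803

/-- border columns -/
def Z (i : Fin 4) (q : Q) (p : Fin 12) : ℤ :=
  sgn Zn (Nat.add (Nat.mul (Nat.add (Nat.mul 3 i.1) (cd q)) 12) p.1)

/-- border rows -/
def Y (p : Fin 12) (i : Fin 4) (q : Q) : ℤ :=
  sgn Yn (Nat.add (Nat.mul p.1 12) (Nat.add (Nat.mul 3 i.1) (cd q)))

/-- corner -/
def X (p q : Fin 12) : ℤ := sgn Xn (Nat.add (Nat.mul p.1 12) q.1)

theorem cls (i : ℕ) (c : Q → ℤ)
    (h : ∀ q : Q, 2 * (onesC G S i (pr (cd q)) : ℤ) - (cnt G (pr (cd q)) : ℤ) = c q) (q : Q) :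
    ∑ x : G, (if pi x = q then sq S i x else 0) = c q := by
  rw [← h q, ← sum_sqC]
  exact Finset.sum_congr rfl fun x _ => if_congr (pi_pr q x) rfl rfl

theorem clsw (h : ∀ q : Q, cnt G (pr (cd q)) = 178) (q : Q) :
    ∑ x : G, (if pi x = q then (1 : ℤ) else 0) = 178 := by
  have e := h q
  have : ((cnt G (pr (cd q)) : ℕ) : ℤ) = 178 := by rw [e]; rfl
  rw [← this, ← sum_cnt]
  exact Finset.sum_congr rfl fun x _ => if_congr (pi_pr q x) rfl rfl

/-- prescribed autocorrelation -/
def tau (q : Q) : ℤ := if q = 0 then -12 else 0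

theorem tt_tau : ∀ s : G, 2 * (tt (Loop.enc s) : ℤ) - 2136 = tau (pi s) := by decide +kernel

theorem h1 : ∀ p p' : Fin 12, ∑ q, X p q * X p' q +
    178 * ∑ j, ∑ q, Y p j q * Y p' j q =
    if p = p' then (2148 : ℤ) else 0 := by decide +kernel

theorem h2 : ∀ (p : Fin 12) (i : Fin 4) (x : Q),
    ∑ q, X p q * Z i x q + ∑ j, ∑ q, gs cA cB cC cD i x j q * Y p j q = 0 := by
  decide +kernel

theorem h3 : ∀ (i : Fin 4) (x : Q) (i' : Fin 4) (t : Q),
    ∑ p, Z i x p * Z i' t p = if i = i' then -tau (x - t) else 0 := by decide +kernel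

theorem had : HadOrder 2148 := by
  have e : 12 + 4 * Fintype.card G = 2148 := by simp
  rw [← e]
  refine hadamard_borderQ (G := G) (Q := Q) pi pi_add (sq S 0) (sq S 1) (sq S 2) (sq S 3)
    (fun x => sgn_pm _ _) (fun x => sgn_pm _ _) (fun x => sgn_pm _ _) (fun x => sgn_pm _ _)
    178 (clsw (by decide +kernel)) cA cB cC cD
    (cls 0 cA (by decide +kernel)) (cls 1 cB (by decide +kernel)) (cls 2 cC (by decide +kernel))
    (cls 3 cD (by decide +kernel)) Z Y X (fun _ _ _ => sgn_pm _ _)
    (fun _ _ _ => sgn_pm _ _)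
    (fun _ _ => sgn_pm _ _) 2148 (by simp) h1 h2 tau h3 ?_
  intro s hs
  have g1 := checkC_spec S tt check s hs
  have g2 : (Fintype.card G : ℤ) = 534 := by simp
  rw [g1, g2, ← tt_tau s]
  norm_num

end Pool.Agent.Y341.Had.N537
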