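import Mathlib
import Pool.Agent.TH394.HadCheck

/-!
# A Hadamard matrix of order 3532

Four `±1` functions on `Z_883` (nibble `p` of `Q` holds the four signs at the element with
code `p`) with total periodic autocorrelation `0`.
-/

set_option autoImplicit false

namespace Pool.Agent.Y341.Had.N883

open Pool.Agent.TH394

/-- the sequences -/
def Q : ℕ :=
  0xbfa8a67776d2cb7b3132c92c7053c13304ccb3dc20ce5370319dfa03dd2c54d3dd6ad0bd1f5a696063fd9b169a649bdd1a4cbc36d6b10dbaa6d9035d33da593a39606565b9edcff91c6c2a56859e523da2b44cd66cef20d5dc8107fabc3306c61c064abdffebd3f7a9d2af305da0f3d666d7a9febdc41369000069153aaeb3865abe329f328a52d3634c06860078e6ae90adc7dbccb18ab2f7cadc66ca0cd056b50303ba3a9b00f7b57b3628f38d094a79abf720cdc1ac25f33b03630dc7d087f06d9dd20a151f1936fc067f990aa83101cea9d386dc3a3d633931ff6c3386c262b26661212cc6f683d0106acce0c76eafbdaddd073cbcc37301a506b3faf7920ad66fd654730e96c0fcb7b12a13c090b5033a5b0f050727dd3d7b47f6c2d5f60e3df1894d5109cf7bf0af10a731c3dc0c6b6bf1363b62f56b21fdf0f0ddc37773b36dc4bdf3cf052a250e3f1d7fe661bf0af19fe3c50c2798343700dd0e0a81d1bc76afdc3b6ccd60563bfcb12bf36398b3a45fcddab23abf60bb0166cd27b1366db789ac30d99c6d55dcc3fcc85c5e2aa2bc6bedc5a10cbcfccd96c5f7f35cdfa02bf6a64cf994c702d90ba046b430d2d0d43c20002616a5d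

set_option maxRecDepth 100000 in
theorem check : checkA (Fin 883) Q 883 = true := by decide +kernel

theorem had : HadOrder 3532 :=
  hadamard_checkA (Fin 883) Q 883 (by simp) check

end Pool.Agent.Y341.Had.N883
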