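import Mathlib
import Pool.Agent.TH394.HadCheck

/-!
# A Hadamard matrix of order 3732

Four `±1` functions on `Z_3 x Z_311` (nibble `p` of `Q` holds the four signs at the element with
code `p`) with total periodic autocorrelation `0`.
-/

set_option autoImplicit false

namespace Pool.Agent.Y341.Had.N933

open Pool.Agent.TH394

/-- the sequences -/
def Q : ℕ :=
  0xc388cccc6606c3c69c7c87bc3338937c7bc377830cb780c3c808889c9b780763c98076b869c90c38c7c67009ccc793b893bc77bccc8c8bb6cb70679cc7796c8876bb7c67373c800c7c8bb69b77b6386cb667039cc707873b9366b3770bc8309c8bc860b66797909633967c767c3090ccc3b039779cc9cb76b3c7c97b8c736c9c777c7070c7869c77887968037c77770637030cb070bcbb909977701a244bbab55d5a2a5ea5a451a2224e25aa1b2aa42db1a4da2a4d444ebe154da52be4d55145ebedb24b5a55ddeaba5e214e21b551bab4b4115a1ad5aeba5ae5a4455115b552a2a4ddb5a4115e1a515245b155ad2eaaad54521e25512aad1b42deb41a45d155aeaede522e55ba55b2dedbaa21d2ea5eabeb1a512aabe514aa25bebaaaaad5daa45ea5a445e54d25ba555d52ad2db1d5d1a11edeeaa5dfcfaa44c49959cfc9ac9ca93cfffaaf9c634f66af5436a5cfca5aaaa4a39a569f4aa5993a9a4a54fa49c9955ac4c9af3aaf349934c4a4a339c36596a4c96a9caa99339499f6fca5549ca339a36939fa9439965facc659a9f3af993f66534af5a4a3ca953996a6a5a9ffa9946994f5a54ccf35fa69ac4a43693fc64a93ac6f94a4666c6595c6a9ac96aa9a9a5f94699959f65f5435953c33a5aa66957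

set_option maxRecDepth 100000 in
theorem check : checkA (Fin 3 × Fin 311) Q 933 = true := by decide +kernel

theorem had : HadOrder 3732 :=
  hadamard_checkA (Fin 3 × Fin 311) Q 933 (by simp) check

end Pool.Agent.Y341.Had.N933
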