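import Pool.Agent.Y341.Had.Agayan

/-!
# The squaring tower

If `q` is a prime power, `q = 1` modulo `4`, and there is a Hadamard matrix of order `q - 1`, then
for every `a` there are Hadamard matrices of the orders `q ^ 2 ^ a - 1`, `2 (q ^ 2 ^ a + 1)` and
`4 q ^ 2 ^ a`.
-/

set_option autoImplicit false

namespace Pool.Agent.Y341.Had

open Finset
open Pool.Agent.TH394 (HadOrder hadOrder_of)
open Pool.Agent.Y342.SK (IsCoreG had_two had_four)
open Pool.Agent.TH432.Had (sum_chi chi_neg char_ne_two)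

/-- the Paley core of a finite field with `q = 1` modulo `4` elements -/
theorem paley_core {q : ℕ} (hq : IsPrimePow q) (h4 : q % 4 = 1) :
    ∃ B : Fin q → Fin q → ℤ, IsCoreG 1 B := by
  obtain ⟨p, k, hp, hk, rfl⟩ := hq
  have hp' : p.Prime := hp.nat_prime
  have : Fact p.Prime := ⟨hp'⟩
  have : Fintype (GaloisField p k) := Fintype.ofFinite _
  have hcard : Fintype.card (GaloisField p k) = p ^ k := by
    rw [← Nat.card_eq_fintype_card, GaloisField.card p k (by omega)]
  classical
  have h4' : Fintype.card (GaloisField p k) % 4 = 1 := by rw [hcard]; exact h4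
  have hc : IsCoreG 1 (fun x y : GaloisField p k => quadraticChar (GaloisField p k) (x - y)) := by
    refine ⟨fun x => by simp, fun x y hxy => ?_, fun x y => ?_, fun x => ?_, fun x y => ?_⟩
    · exact quadraticChar_dichotomy (sub_ne_zero.2 hxy)
    · rw [← neg_sub, chi_neg h4', one_mul]
    · have h7 := Equiv.sum_comp (Equiv.subLeft x) (fun w => quadraticChar (GaloisField p k) w)
      simp only [Equiv.subLeft_apply] at h7
      rw [h7, quadraticChar_sum_zero (char_ne_two h4')]
    · exact sum_chi h4' x y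
  exact hc.fin hcard

/-- Paley's second construction -/
theorem had_paley_two {q : ℕ} (hq : IsPrimePow q) (h4 : q % 4 = 1) : HadOrder (2 * (q + 1)) := by
  obtain ⟨B, hB⟩ := paley_core hq h4
  exact had_two hB

/-- Paley's first construction, prime moduli -/
theorem had_paley_one {p : ℕ} (hp : p.Prime) (h4 : p % 4 = 3) : HadOrder (p + 1) := by
  have : Fact p.Prime := ⟨hp⟩
  exact Pool.Agent.W69.HH.paley h4

theorem tower_pow {q : ℕ} (hq : IsPrimePow q) (h4 : q % 4 = 1) (a : ℕ) :
    IsPrimePow (q ^ 2 ^ a) ∧ q ^ 2 ^ a % 4 = 1 := by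
  refine ⟨hq.pow (by positivity), ?_⟩
  rw [Nat.pow_mod, h4, one_pow]
  norm_num

theorem tower {q : ℕ} (hq : IsPrimePow q) (h4 : q % 4 = 1) (hH : HadOrder (q - 1)) (a : ℕ) :
    HadOrder (q ^ 2 ^ a - 1) := by
  induction a with
  | zero => simpa using hH
  | succ a ih =>
    obtain ⟨h1, h2⟩ := tower_pow hq h4 a
    have h3 := had_paley_two h1 h2
    rw [pow_succ 2 a, pow_mul]
    set P := q ^ 2 ^ a with hP
    obtain ⟨h, hh⟩ : ∃ h, P = 2 * h + 1 := ⟨P / 2, by omega⟩
    have e1 : P - 1 = 2 * h := by omega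
    have e2 : P ^ 2 - 1 = 2 * (h * (P + 1)) := by
      rw [hh]
      have : (2 * h + 1) ^ 2 = 2 * (h * (2 * h + 1 + 1)) + 1 := by ring
      rw [this]
      rfl
    rw [e2]
    rw [e1] at ih
    exact agayan ih h3

theorem tower_four {q : ℕ} (hq : IsPrimePow q) (h4 : q % 4 = 1) (hH : HadOrder (q - 1)) (a : ℕ) :
    HadOrder (4 * q ^ 2 ^ a) := by
  have h0 := tower hq h4 hH a
  obtain ⟨h1, h2⟩ := tower_pow hq h4 a
  have hc := paley_core h1 h2
  revert h0 hc
  generalize q ^ 2 ^ a = P at *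
  intro h0 hc
  obtain ⟨m, rfl⟩ : ∃ m, P = m + 1 := ⟨P - 1, by omega⟩
  obtain ⟨B, hB⟩ := hc
  exact had_four hB h0

end Pool.Agent.Y341.Had
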