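import Pool.Agent.TH394.HadN179
import Pool.Agent.TH394.HadN223
import Pool.Agent.TH394.HadN311
import Pool.Agent.TH394.HadN347
import Pool.Agent.TH394.HadN419
import Pool.Agent.TH394.HadN443
import Pool.Agent.TH394.HadN479
import Pool.Agent.TH394.HadN487
import Pool.Agent.TH394.HadN491
import Pool.Agent.TH394.HadN919
import Pool.Agent.TH510.HadN359
import Pool.Agent.TH786.Had668
import Pool.Agent.TH786.Had1132
import Pool.Agent.Y341.Had.N515
import Pool.Agent.Y341.Had.N537
import Pool.Agent.Y341.Had.N839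
import Pool.Agent.Y341.Had.N883
import Pool.Agent.Y341.Had.N933
import Pool.Agent.Y341.Had.Tower

/-!
# Eighteen new Hadamard orders and their multiples
-/

set_option autoImplicit false

namespace Pool.Agent.Y341.Had

open Pool.Agent.TH394 (HadOrder hadOrder_of)

theorem base : ∀ m ∈ ([167, 179, 223, 283, 311, 347, 359, 419, 443, 479, 487, 491, 515, 537,
    839, 883, 919, 933] : List ℕ), HadOrder (4 * m) := by
  intro m hm
  simp only [List.mem_cons, List.not_mem_nil, or_false] at hm
  rcases hm with rfl | rfl | rfl | rfl | rfl | rfl | rfl | rfl | rfl | rfl | rfl | rfl | rfl |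
    rfl | rfl | rfl | rfl | rfl
  · exact Pool.Agent.TH786.Had.N167.had
  · exact Pool.Agent.TH394.N179.had
  · exact Pool.Agent.TH394.N223.had
  · exact Pool.Agent.TH786.Had.N283.had
  · exact Pool.Agent.TH394.N311.had
  · exact Pool.Agent.TH394.N347.had
  · exact Pool.Agent.TH510.Had.N359.had
  · exact Pool.Agent.TH394.N419.had
  · exact Pool.Agent.TH394.N443.had
  · exact Pool.Agent.TH394.N479.had
  · exact Pool.Agent.TH394.N487.had
  · exact Pool.Agent.TH394.N491.had
  · exact Pool.Agent.Y341.Had.N515.had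
  · exact Pool.Agent.Y341.Had.N537.had
  · exact Pool.Agent.Y341.Had.N839.had
  · exact Pool.Agent.Y341.Had.N883.had
  · exact Pool.Agent.TH394.N919.had
  · exact Pool.Agent.Y341.Had.N933.had

/-- the multipliers -/
theorem mult {m n : ℕ} (hm : HadOrder (4 * m))
    (hn : n = 1 ∨ (∃ p, p.Prime ∧ p % 4 = 3 ∧ 2 * n = p + 1) ∨
      (∃ q, IsPrimePow q ∧ q % 4 = 1 ∧ n = q + 1) ∨ HadOrder (2 * n)) :
    HadOrder (4 * (m * n)) := by
  have h2 : HadOrder (2 * n) → HadOrder (4 * (m * n)) := by
    intro h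
    have e1 : 4 * m = 2 * (2 * m) := by ring
    have e2 : 4 * (m * n) = 2 * (2 * m * n) := by ring
    rw [e2]
    rw [e1] at hm
    exact agayan hm h
  rcases hn with rfl | ⟨p, hp, h4, h⟩ | ⟨q, hq, h4, rfl⟩ | h
  · rwa [mul_one]
  · refine h2 ?_
    rw [h]
    exact had_paley_one hp h4
  · exact h2 (had_paley_two hq h4)
  · exact h2 h

end Pool.Agent.Y341.Had
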