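import Pool.Agent.TH394.HadGS
import Pool.Agent.Y342.SK.Sym
import Pool.Agent.W69.HH.Paley

/-!
# Agayan's product of Hadamard matrices, and the squaring tower

From Hadamard matrices of orders `2 a` and `2 b` one gets one of order `2 a b`. Hence, if `q` is a
prime power, `q = 1` modulo `4`, and there is a Hadamard matrix of order `q - 1`, then there is one
of order `q ^ 2 ^ a - 1` for every `a`.
-/

set_option autoImplicit false

namespace Pool.Agent.Y341.Had

open Finset
open Pool.Agent.TH394 (HadOrder hadOrder_of)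

theorem rows_of {ι : Type} [Fintype ι] [DecidableEq ι] {N : ℕ} (hι : Fintype.card ι = N)
    (h : HadOrder N) :
    ∃ B : ι → ι → ℤ, (∀ p q, B p q = 1 ∨ B p q = -1) ∧
      ∀ p q, ∑ r, B p r * B q r = if p = q then (N : ℤ) else 0 := by
  obtain ⟨H, h1, h2⟩ := h
  let e : ι ≃ Fin N := Fintype.equivFinOfCardEq hι
  refine ⟨fun p q => H (e p) (e q), fun p q => h1 _ _, fun p q => ?_⟩
  rw [Equiv.sum_comp e (fun r => H (e p) r * H (e q) r)]
  have := congrFun (congrFun h2 (e p)) (e q)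
  rw [Matrix.mul_apply, Matrix.smul_apply, Matrix.one_apply] at this
  simp only [Matrix.transpose_apply, smul_eq_mul] at this
  rw [this]
  by_cases h : p = q
  · simp [h]
  · simp [h]

theorem four_sum {α β : Type} [Fintype α] [Fintype β] (s d s' d' : α → ℤ)
    (E G E' G' : Fin 2 × β → ℤ) :
    ∑ r : Fin 2 × (α × β), (s r.2.1 * E (r.1, r.2.2) + d r.2.1 * G (r.1, r.2.2)) *
      (s' r.2.1 * E' (r.1, r.2.2) + d' r.2.1 * G' (r.1, r.2.2)) =
    (∑ x, s x * s' x) * (∑ z, E z * E' z) + (∑ x, s x * d' x) * (∑ z, E z * G' z) +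
    (∑ x, d x * s' x) * (∑ z, G z * E' z) + (∑ x, d x * d' x) * (∑ z, G z * G' z) := by
  have h1 : ∀ f : Fin 2 × (α × β) → ℤ, ∑ r, f r = ∑ x : α, ∑ z : Fin 2 × β, f (z.1, (x, z.2)) := by
    intro f
    rw [Fintype.sum_prod_type]
    simp only [Fintype.sum_prod_type]
    rw [Finset.sum_comm]
  rw [h1]
  simp only [Finset.sum_mul_sum, ← Finset.sum_add_distrib]
  refine Finset.sum_congr rfl fun x _ => Finset.sum_congr rfl fun z _ => ?_
  ring

/-- Agayan's product -/
theorem agayan {a b : ℕ} (ha : HadOrder (2 * a)) (hb : HadOrder (2 * b)) :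
    HadOrder (2 * (a * b)) := by
  obtain ⟨H, hH1, hH2⟩ := rows_of (ι := Fin 2 × Fin a) (by simp) ha
  obtain ⟨K, hK1, hK2⟩ := rows_of (ι := Fin 2 × Fin b) (by simp) hb
  let M : Fin 2 × (Fin a × Fin b) → Fin 2 × (Fin a × Fin b) → ℤ := fun p q =>
    if H (p.1, p.2.1) (0, q.2.1) = H (p.1, p.2.1) (1, q.2.1) then
      H (p.1, p.2.1) (0, q.2.1) * K (0, p.2.2) (q.1, q.2.2) else
      H (p.1, p.2.1) (0, q.2.1) * K (1, p.2.2) (q.1, q.2.2)
  have hM : ∀ p q, 2 * M p q =
      (H (p.1, p.2.1) (0, q.2.1) + H (p.1, p.2.1) (1, q.2.1)) * K (0, p.2.2) (q.1, q.2.2) +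
      (H (p.1, p.2.1) (0, q.2.1) - H (p.1, p.2.1) (1, q.2.1)) * K (1, p.2.2) (q.1, q.2.2) := by
    intro p q
    simp only [M]
    rcases hH1 (p.1, p.2.1) (0, q.2.1) with h | h <;>
      rcases hH1 (p.1, p.2.1) (1, q.2.1) with h' | h' <;> rw [h, h'] <;> norm_num
  refine hadOrder_of (ι := Fin 2 × (Fin a × Fin b)) _ (by simp) M ?_ ?_
  · intro p q
    simp only [M]
    rcases hH1 (p.1, p.2.1) (0, q.2.1) with h | h <;>
      rcases hK1 (0, p.2.2) (q.1, q.2.2) with h2 | h2 <;>
      rcases hK1 (1, p.2.2) (q.1, q.2.2) with h3 | h3 <;>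
      rw [h, h2, h3] <;> split_ifs <;> norm_num
  · intro p q
    have key : 4 * ∑ r, M p r * M q r = 4 * (if p = q then ((2 * (a * b) : ℕ) : ℤ) else 0) := by
      rw [Finset.mul_sum]
      have e1 : ∀ r, 4 * (M p r * M q r) = (2 * M p r) * (2 * M q r) := fun r => by ring
      rw [Finset.sum_congr rfl fun r _ => e1 r]
      simp only [hM]
      rw [four_sum (fun x => H (p.1, p.2.1) (0, x) + H (p.1, p.2.1) (1, x))
        (fun x => H (p.1, p.2.1) (0, x) - H (p.1, p.2.1) (1, x))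
        (fun x => H (q.1, q.2.1) (0, x) + H (q.1, q.2.1) (1, x))
        (fun x => H (q.1, q.2.1) (0, x) - H (q.1, q.2.1) (1, x))
        (fun z => K (0, p.2.2) z) (fun z => K (1, p.2.2) z)
        (fun z => K (0, q.2.2) z) (fun z => K (1, q.2.2) z)]
      rw [hK2, hK2, hK2, hK2]
      have h01 : ((0 : Fin 2), p.2.2) ≠ (1, q.2.2) := by simp
      have h10 : ((1 : Fin 2), p.2.2) ≠ (0, q.2.2) := by simp
      rw [if_neg h01, if_neg h10]
      have hHs := hH2 (p.1, p.2.1) (q.1, q.2.1)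
      rw [Fintype.sum_prod_type, Fin.sum_univ_two] at hHs
      have e2 : (∑ x, (H (p.1, p.2.1) (0, x) + H (p.1, p.2.1) (1, x)) *
            (H (q.1, q.2.1) (0, x) + H (q.1, q.2.1) (1, x))) +
          (∑ x, (H (p.1, p.2.1) (0, x) - H (p.1, p.2.1) (1, x)) *
            (H (q.1, q.2.1) (0, x) - H (q.1, q.2.1) (1, x))) =
          2 * (∑ x, H (p.1, p.2.1) (0, x) * H (q.1, q.2.1) (0, x) +
            ∑ x, H (p.1, p.2.1) (1, x) * H (q.1, q.2.1) (1, x)) := by
        rw [← Finset.sum_add_distrib, ← Finset.sum_add_distrib, Finset.mul_sum]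
        refine Finset.sum_congr rfl fun x _ => ?_
        ring
      rw [hHs] at e2
      obtain ⟨i, x, y⟩ := p
      obtain ⟨j, x', y'⟩ := q
      simp only [Prod.mk.injEq, true_and] at e2 ⊢
      by_cases hy : y = y'
      · subst hy
        simp only [and_true, if_true]
        rw [mul_zero, mul_zero, add_zero, add_zero, ← add_mul, e2]
        split_ifs <;> push_cast <;> ring
      · simp only [hy, and_false, if_false, mul_zero, add_zero]
    exact mul_left_cancel₀ (by norm_num) key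

end Pool.Agent.Y341.Had
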