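import Mathlib
import Pool.Agent.TH786.Had668

/-!
# A Hadamard matrix of order 3356

Four `±1` functions on `G = Z_4 x Z_4 x Z_4 x Z_13` (nibble `p` of `S` holds the four signs at the
element with code `p`).
With `N` the kernel of the map from `G` onto `Q = Z_2 x Z_2 x Z_2`, the total periodic autocorrelation is
`-28` at the nonzero elements of `N` and `4` outside `N`. The Goethals-Seidel array of order
`3328` is bordered by 28 rows and columns that are constant on the cosets of `N`.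
-/

set_option autoImplicit false

namespace Pool.Agent.Y341.Had.N839

open Pool.Agent.TH394 Pool.Agent.TH786.Had

/-- the group -/
abbrev G : Type := Fin 4 × Fin 4 × Fin 4 × Fin 13

/-- the quotient -/
abbrev Q : Type := Fin 2 × Fin 2 × Fin 2

/-- the sequences -/
def S : ℕ :=
  0x3f34ff003404b525b22dd5bdbee1e711eee7e7f3f34ff003404be1e711eee7e7f3f34ff003404b525b22dd5bdbe4e40ee114010a2d2fdd222f2f5303c00ff3cfc4525b22dd5bdbea3a933cca9c97303c00ff3cfc4303c00ff3cfc4d9d09922d020be1e711eee7e7f525b22dd5bdbea3a933cca9c97303c00ff3cfc4525b22dd5bdbe4e40ee114010ad4d244bbd2b23525b22dd5bdbed4d244bbd2b232d2fdd222f2f5e1e711eee7e7f4e40ee114010a4e40ee114010ad9d09922d020bd4d244bbd2b233f34ff003404bd4d244bbd2b234e40ee114010a2d2fdd222f2f5303c00ff3cfc4e1e711eee7e7f4e40ee114010ad9d09922d020ba3a933cca9c97525b22dd5bdbea3a933cca9c974e40ee114010ad9d09922d020bd9d09922d020b3f34ff003404b2d2fdd222f2f52d2fdd222f2f5a3a933cca9c97e1e711eee7e7f303c00ff3cfc4d9d09922d020b3f34ff003404b2d2fdd222f2f5d4d244bbd2b23303c00ff3cfc4d4d244bbd2b233f34ff003404b2d2fdd222f2f5a3a933cca9c97d9d09922d020be1e711eee7e7fd4d244bbd2b23a3a933cca9c978e8fee558f5f0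

/-- the quotient map -/
def pi (x : G) : Q := (Fin.ofNat 2 x.1.1, Fin.ofNat 2 x.2.1.1, Fin.ofNat 2 x.2.2.1.1)

/-- the code of a class -/
def cd (q : Q) : ℕ := Nat.add (Nat.mul 4 q.1.1) (Nat.add (Nat.mul 2 q.2.1.1) q.2.2.1)

/-- the class of a code -/
def pr (q : ℕ) (p : ℕ) : Bool :=
  Nat.beq (Nat.add (Nat.mul 4 (Nat.mod (Nat.div p 208) 2))
    (Nat.add (Nat.mul 2 (Nat.mod (Nat.div p 52) 2))
    (Nat.mod (Nat.div p 13) 2))) q

theorem pi_pr : ∀ (q : Q) (x : G), pi x = q ↔ pr (cd q) (Loop.enc x) = true := by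
  decide +kernel

theorem pi_add : ∀ x y : G, pi (x + y) = pi x + pi y := by
  have h4_2 : ∀ p q : Fin 4, Fin.ofNat 2 (p + q).1 = Fin.ofNat 2 p.1 + Fin.ofNat 2 q.1 := by
    decide +kernel
  intro x y
  exact Prod.ext (h4_2 x.1 y.1) (Prod.ext (h4_2 x.2.1 y.2.1) (h4_2 x.2.2.1 y.2.2.1))

/-- agreements needed at the shift with code `p` -/
def tt (p : ℕ) : ℕ := cond (pr 0 p) 1650 1666

set_option maxRecDepth 100000 in
theorem check : checkC G S tt = true := by decide +kernel

/-- class sums -/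
def cA : Q → ℤ := fun q => if q = 0 then 6 else 2
/-- class sums -/
def cB : Q → ℤ := fun q => if q = 0 then 6 else 4
/-- class sums -/
def cC : Q → ℤ := fun q => if q = 0 then -2 else -4
/-- class sums -/
def cD : Q → ℤ := fun q => if q = 0 then -2 else -4

theorem cls (i : ℕ) (c : Q → ℤ)
    (h : ∀ q : Q, 2 * (onesC G S i (pr (cd q)) : ℤ) - (cnt G (pr (cd q)) : ℤ) = c q) (q : Q) :
    ∑ x : G, (if pi x = q then sq S i x else 0) = c q := by
  rw [← h q, ← sum_sqC]
  exact Finset.sum_congr rfl fun x _ => if_congr (pi_pr q x) rfl rfl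

theorem clsw (h : ∀ q : Q, cnt G (pr (cd q)) = 104) (q : Q) :
    ∑ x : G, (if pi x = q then (1 : ℤ) else 0) = 104 := by
  have e := h q
  have : ((cnt G (pr (cd q)) : ℕ) : ℤ) = 104 := by rw [e]; rfl
  rw [← this, ← sum_cnt]
  exact Finset.sum_congr rfl fun x _ => if_congr (pi_pr q x) rfl rfl

/-- prescribed autocorrelation -/
def tau (q : Q) : ℤ := if q = 0 then -28 else 4

theorem tt_tau : ∀ s : G, 2 * (tt (Loop.enc s) : ℤ) - 3328 = tau (pi s) := by decide +kernel

theorem h1 : ∀ p p' : Fin 28, ∑ q, N167.X p q * N167.X p' q +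
    104 * ∑ j, ∑ q, N167.Y p j q * N167.Y p' j q =
    if p = p' then (3356 : ℤ) else 0 := by decide +kernel

theorem h2 : ∀ (p : Fin 28) (i : Fin 4) (x : Q),
    ∑ q, N167.X p q * N167.Z i x q + ∑ j, ∑ q, gs cA cB cC cD i x j q * N167.Y p j q = 0 := by
  decide +kernel

theorem h3 : ∀ (i : Fin 4) (x : Q) (i' : Fin 4) (t : Q),
    ∑ p, N167.Z i x p * N167.Z i' t p = if i = i' then -tau (x - t) else 0 := by decide +kernel

theorem had : HadOrder 3356 := by
  have e : 28 + 4 * Fintype.card G = 3356 := by simp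
  rw [← e]
  refine hadamard_borderQ (G := G) (Q := Q) pi pi_add (sq S 0) (sq S 1) (sq S 2) (sq S 3)
    (fun x => sgn_pm _ _) (fun x => sgn_pm _ _) (fun x => sgn_pm _ _) (fun x => sgn_pm _ _)
    104 (clsw (by decide +kernel)) cA cB cC cD
    (cls 0 cA (by decide +kernel)) (cls 1 cB (by decide +kernel)) (cls 2 cC (by decide +kernel))
    (cls 3 cD (by decide +kernel)) N167.Z N167.Y N167.X (fun _ _ _ => sgn_pm _ _)
    (fun _ _ _ => sgn_pm _ _)
    (fun _ _ => sgn_pm _ _) 3356 (by simp) h1 h2 tau h3 ?_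
  intro s hs
  have g1 := checkC_spec S tt check s hs
  have g2 : (Fintype.card G : ℤ) = 832 := by simp
  rw [g1, g2, ← tt_tau s]
  norm_num

end Pool.Agent.Y341.Had.N839
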